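import Pool.Agent.Q106.BR.Low

/-!
# The joint lower bound, almost surely
-/

set_option autoImplicit false

namespace Pool.Agent.Q106.BR

open Finset MeasureTheory Filter Pool.Agent.Q120.ET Pool.Agent.Q120.MF Pool.Agent.Q120.AD Pool.Agent.Q120.NC
  Pool.Agent.Q120.TD Pool.Agent.Q166.Sq
open scoped Topology

/-- `m` and `m + g` are consecutive elements. -/
def Cons (S : Set ℕ) (m g : ℕ) : Prop := m ∈ S ∧ m + g ∈ S ∧ Emp S m g

/-- The starting points. -/
def st (K g j : ℕ) : ℕ := K + j * (g + 1)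

theorem icc_sdiff {m g : ℕ} : Icc m (m + g) \ {m, m + g} = U m g := by
  ext n
  unfold U
  rw [Finset.mem_sdiff]
  simp only [Finset.mem_Icc, Finset.mem_insert, Finset.mem_singleton, Finset.mem_Ioo, not_or]
  omega

section

variable {Ω : Type*} [MeasurableSpace Ω] {μ : Measure Ω} [IsProbabilityMeasure μ] {A : Ω → Set ℕ}

theorem cons_of_tr {ω : Ω} {m g : ℕ} (h : tr A (Icc m (m + g)) ω = {m, m + g}) : Cons (A ω) m g := by
  have h1 : m ∈ tr A (Icc m (m + g)) ω := by rw [h]; simp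
  have h2 : m + g ∈ tr A (Icc m (m + g)) ω := by rw [h]; simp
  rw [mem_tr] at h1 h2
  refine ⟨h1.2, h2.2, ?_⟩
  intro k hk1 hk2 hk3
  have h3 : k ∈ tr A (Icc m (m + g)) ω := mem_tr.2 ⟨mem_Icc.2 ⟨hk1.le, hk2.le⟩, hk3⟩
  rw [h, mem_insert, mem_singleton] at h3
  omega

/-- The probability that `m` and `m + g` are consecutive elements. -/
theorem cons_ge {η : ℝ} (hη : 0 < η) : ∀ᶠ K : ℕ in atTop, ∀ m g : ℕ, K ≤ m → m < 2 * K → 1 ≤ g → g ≤ K →
    Real.exp (-(2 * Real.log (Real.log (3 * K)) + (1 + η) * (g / Real.log K))) ≤ cramerOn (Icc m (m + g)) {m, m + g} := by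
  filter_upwards [hl.eventually_ge_atTop ((1 + η) / η), hl.eventually_ge_atTop 1, eventually_ge_atTop 3]
    with K h1 h2 h3 m g hm1 hm2 hg1 hg2
  have hK3 : (3 : ℝ) ≤ K := by exact_mod_cast h3
  have hmK : (K : ℝ) ≤ m := by exact_mod_cast hm1
  obtain ⟨L, hL⟩ : ∃ L, L = Real.log (K : ℝ) := ⟨_, rfl⟩
  rw [← hL] at h1 h2 ⊢
  have hL0 : 0 < L := by linarith
  unfold cramerOn
  rw [icc_sdiff, prod_pair (by omega)]
  obtain ⟨Z, hZ⟩ : ∃ Z, Z = Real.log (3 * (K : ℝ)) := ⟨_, rfl⟩
  rw [← hZ]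
  have hZL : L ≤ Z := by
    rw [hZ, hL]
    exact Real.log_le_log (by linarith) (by linarith)
  have hZ0 : 0 < Z := by linarith
  have e1 : 1 / Z ≤ 1 / Real.log (m : ℝ) := by
    refine one_div_le_one_div_of_le (by linarith [one_lt_log (show 3 ≤ m by omega)]) ?_
    rw [hZ]
    refine Real.log_le_log (by linarith) ?_
    have : (m : ℝ) ≤ 2 * K := by exact_mod_cast hm2.le
    linarith
  have e2 : 1 / Z ≤ 1 / Real.log ((m + g : ℕ) : ℝ) := by
    refine one_div_le_one_div_of_le (by linarith [one_lt_log (show 3 ≤ m + g by omega)]) ?_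
    rw [hZ]
    refine Real.log_le_log (by exact_mod_cast (show 0 < m + g by omega)) ?_
    exact_mod_cast (show m + g ≤ 3 * K by omega)
  have hlm : L ≤ Real.log (m : ℝ) := by
    rw [hL]
    exact Real.log_le_log (by linarith) hmK
  have e3 := exp_le_prod (W := U m g) (y := (K : ℝ)) (δ := η) (by rw [← hL]; exact hL0) (by linarith) (fun n hn => by
    unfold U at hn
    rw [mem_Ioo] at hn
    exact_mod_cast (show K ≤ n by omega)) hη (by
      rw [← hL]
      rw [div_le_iff₀ hη] at h1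
      linarith)
  rw [← hL] at e3
  have e4 : Real.exp (-((1 + η) * (g / L))) ≤ Real.exp (-((1 + η) * (U m g).card / L)) := by
    refine Real.exp_le_exp.2 (neg_le_neg ?_)
    rw [mul_div_assoc]
    apply mul_le_mul_of_nonneg_left _ (by linarith)
    apply div_le_div_of_nonneg_right _ hL0.le
    rw [card_U]
    exact_mod_cast Nat.sub_le g 1
  have e5 : Real.exp (-(2 * Real.log Z)) = 1 / Z * (1 / Z) := by
    rw [Real.exp_neg, two_mul, Real.exp_add, Real.exp_log hZ0]
    field_simp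
  have e6 : Real.exp (-(2 * Real.log Z + (1 + η) * (g / L))) = Real.exp (-(2 * Real.log Z)) * Real.exp (-((1 + η) * (g / L))) := by
    rw [← Real.exp_add]
    ring_nf
  rw [e6, e5]
  have e7 : 0 < 1 / Z := by positivity
  refine mul_le_mul (mul_le_mul e1 e2 e7.le (e7.le.trans e1)) (e4.trans e3) (Real.exp_pos _).le ?_
  exact mul_nonneg (e7.le.trans e1) (e7.le.trans e2)

/-- **The lower bound.** -/
theorem lower (hA : IsCramer μ A) (G : ℕ → ℕ) {β c ε : ℝ} (hβ : 0 ≤ β) (hc : β + c ^ 2 < 1) (hε : 0 < ε)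
    (hG1 : ∀ K, 1 ≤ G K) (hG : ∀ δ : ℝ, 0 < δ → ∀ᶠ K : ℕ in atTop, (G K : ℝ) ≤ (β + δ) * Real.log K ^ 2) :
    ∀ᵐ ω ∂μ, ∀ᶠ i : ℕ in atTop, ∃ m, 2 ^ i ≤ m ∧ m < 2 * 2 ^ i ∧ Cons (A ω) m (G (2 ^ i)) ∧
      |dvn (A ω) m (G (2 ^ i)) - c| ≤ ε := by
  classical
  have hc1 : |c| ≤ 1 := by
    rw [← sq_le_one_iff_abs_le_one]
    linarith
  obtain ⟨κ, hκ⟩ : ∃ κ, κ = (1 + (β + c ^ 2)) / 2 := ⟨_, rfl⟩
  have hκ1 : κ < 1 := by linarith
  obtain ⟨η, hη⟩ : ∃ η, η = min (ε / 6) ((1 - (β + c ^ 2)) / 40) := ⟨_, rfl⟩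
  have hη0 : 0 < η := by
    rw [hη]
    exact lt_min (by linarith) (by linarith)
  have hη6 : 6 * η ≤ ε := by
    have := min_le_left (ε / 6) ((1 - (β + c ^ 2)) / 40)
    rw [← hη] at this
    linarith
  have hη40 : 40 * η ≤ 1 - (β + c ^ 2) := by
    have := min_le_right (ε / 6) ((1 - (β + c ^ 2)) / 40)
    rw [← hη] at this
    linarith
  have hη1 : η ≤ 1 / 4 := by
    have := sq_nonneg c
    linarith
  have hβ1 : β ≤ 1 := by nlinarith [sq_nonneg c]
  have hexpo : (β + η) * (1 + η) + (|c| + η) ^ 2 + 2 * η ≤ κ := by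
    have e1 : (|c| + η) ^ 2 = c ^ 2 + 2 * |c| * η + η ^ 2 := by
      rw [add_sq, sq_abs]
    rw [e1, hκ]
    have e2 : |c| * η ≤ η := mul_le_of_le_one_left hη0.le hc1
    nlinarith
  obtain ⟨L0, hL01, hwin⟩ := window_any hc1 hη0 (by linarith)
  obtain ⟨s, hs⟩ : ∃ s, s = (1 - κ) / 2 := ⟨_, rfl⟩
  have hs0 : 0 < s := by linarith
  have hmain : ∀ᶠ K : ℕ in atTop, μ.real {ω | ∀ j ∈ range (K / (G K + 1)),
      ¬ (tr A (Icc (st K (G K) j) (st K (G K) j + G K) ∪ V (st K (G K) j) (G K)) ω ∩ Icc (st K (G K) j) (st K (G K) j + G K) =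
        {st K (G K) j, st K (G K) j + G K} ∧ Dv c η (V (st K (G K) j) (G K)) (Real.log (st K (G K) j))
        (tr A (Icc (st K (G K) j) (st K (G K) j + G K) ∪ V (st K (G K) j) (G K)) ω ∩ V (st K (G K) j) (G K)))} ≤
      (K : ℝ) ^ (-(1 : ℝ)) := by
    have hlog3 : Tendsto (fun K : ℕ => Real.log (Real.log (3 * (K : ℝ)))) atTop atTop := by
      refine Real.tendsto_log_atTop.comp (Real.tendsto_log_atTop.comp ?_)
      exact tendsto_natCast_atTop_atTop.const_mul_atTop (by norm_num)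
    -- 2 log log (3K) + 3 ≤ 2 η log K
    have hll : ∀ᶠ K : ℕ in atTop, 2 * Real.log (Real.log (3 * (K : ℝ))) + 3 ≤ 2 * η * Real.log K := by
      have h1 := (Real.isLittleO_log_id_atTop.bound (show 0 < η / 8 by linarith))
      have h2 : Tendsto (fun K : ℕ => Real.log (3 * (K : ℝ))) atTop atTop :=
        Real.tendsto_log_atTop.comp (tendsto_natCast_atTop_atTop.const_mul_atTop (by norm_num))
      filter_upwards [h2.eventually h1, hl.eventually_ge_atTop (3 / η + 2), h2.eventually_ge_atTop 1,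
        (Real.tendsto_log_atTop.comp h2).eventually_ge_atTop 0, eventually_ge_atTop 3] with K e1 e2 e3 e4 e5
      have hK : (3 : ℝ) ≤ K := by exact_mod_cast e5
      simp only [id_eq, Real.norm_eq_abs, Function.comp_apply] at e1 e4
      rw [abs_of_nonneg e4, abs_of_pos (show 0 < Real.log (3 * (K : ℝ)) by linarith)] at e1
      have e6 : Real.log (3 * (K : ℝ)) ≤ 2 * Real.log K := by
        have e61 : 2 * Real.log (K : ℝ) = Real.log ((K : ℝ) ^ 2) := by
          rw [Real.log_pow]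
          norm_num
        rw [e61]
        exact Real.log_le_log (by linarith) (by nlinarith)
      have e7 : 3 + 2 * η ≤ η * Real.log K := by
        have e8 : (3 / η + 2) * η ≤ Real.log K * η := mul_le_mul_of_nonneg_right e2 hη0.le
        have e9 : (3 / η + 2) * η = 3 + 2 * η := by field_simp
        linarith
      nlinarith
    filter_upwards [hll, cons_ge hη0, hG η hη0, hl.eventually_ge_atTop (L0 + 1), eventually_ge_atTop 3,
      ev_pw 8 2 (show (0 : ℝ) < 1 by norm_num), ev_pw 16 2 hs0, ev_pw 1 1 hs0, eventually_forall_ge_atTop.2 (mu_V hη0),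
      eventually_forall_ge_atTop.2 (ev_pw (4 * (L0 + 1)) 2 (show (0 : ℝ) < 1 by norm_num))] with K a1 a2 a3 a4 a5 a6 a7 a8 a9 a10
    have hK3 : (3 : ℝ) ≤ K := by exact_mod_cast a5
    have hK0 : (0 : ℝ) < K := by linarith
    obtain ⟨g, hg⟩ : ∃ g, g = G K := ⟨_, rfl⟩
    rw [← hg] at a3 ⊢
    have hg1 : 1 ≤ g := by rw [hg]; exact hG1 K
    obtain ⟨L, hL⟩ : ∃ L, L = Real.log (K : ℝ) := ⟨_, rfl⟩
    rw [← hL] at a1 a3 a4 a6 a7 a8
    have a2' : ∀ m : ℕ, K ≤ m → m < 2 * K → g ≤ K →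
        Real.exp (-(2 * Real.log (Real.log (3 * K)) + (1 + η) * (g / L))) ≤ cramerOn (Icc m (m + g)) {m, m + g} := by
      intro m h1 h2 h3
      rw [hL]
      exact a2 m g h1 h2 hg1 h3
    have hL1 : 2 ≤ L := by linarith
    rw [Real.rpow_one] at a6
    have hg2 : (g : ℝ) ≤ 2 * L ^ 2 := by
      refine a3.trans (mul_le_mul_of_nonneg_right (by linarith) (by positivity))
    have hgK : (g : ℝ) + 1 ≤ K / 2 := by nlinarith
    have hgK' : g ≤ K := by
      have : (g : ℝ) ≤ K := by linarith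
      exact_mod_cast this
    have hstK : ∀ j ∈ range (K / (g + 1)), K ≤ st K g j ∧ st K g j < 2 * K := by
      intro j hj
      rw [mem_range] at hj
      have h1 : (j + 1) * (g + 1) ≤ K := by
        have := Nat.div_mul_le_self K (g + 1)
        have h2 : (j + 1) * (g + 1) ≤ K / (g + 1) * (g + 1) := Nat.mul_le_mul_right _ hj
        omega
      unfold st
      constructor
      · omega
      · have h2 : (j + 1) * (g + 1) = j * (g + 1) + (g + 1) := by ring
        omega
    have hlogm : ∀ j ∈ range (K / (g + 1)), L ≤ Real.log (st K g j) ∧ Real.log (st K g j) ≤ L + 1 := by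
      intro j hj
      obtain ⟨h1, h2⟩ := hstK j hj
      have h1' : (K : ℝ) ≤ st K g j := by exact_mod_cast h1
      have h2' : (st K g j : ℝ) ≤ 2 * K := by exact_mod_cast h2.le
      rw [hL]
      refine ⟨Real.log_le_log hK0 h1', ?_⟩
      refine (Real.log_le_log (by linarith) h2').trans ?_
      rw [Real.log_mul (by norm_num) hK0.ne']
      linarith [Real.log_two_lt_d9]
    have hdUV : ∀ j ∈ range (K / (g + 1)), Disjoint (Icc (st K g j) (st K g j + g)) (V (st K g j) g) := by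
      intro j hj
      obtain ⟨h1, h2⟩ := hstK j hj
      rw [disjoint_left]
      intro n hn hn'
      unfold V at hn'
      rw [mem_Icc] at hn
      rw [mem_Ioo] at hn'
      nlinarith [hn.2, hn'.1]
    have hmem3 : ∀ j ∈ range (K / (g + 1)), ∀ n ∈ Icc (st K g j) (st K g j + g) ∪ V (st K g j) g, 3 ≤ n := by
      intro j hj n hn
      obtain ⟨h1, h2⟩ := hstK j hj
      rcases mem_union.1 hn with h | h
      · rw [mem_Icc] at h
        omega
      · exact mem_V (by omega) h
    have hsep : ∀ i j : ℕ, i < j → st K g i + g < st K g j := by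
      intro i j hij
      unfold st
      have : (i + 1) * (g + 1) ≤ j * (g + 1) := Nat.mul_le_mul_right _ hij
      have h2 : (i + 1) * (g + 1) = i * (g + 1) + (g + 1) := by ring
      omega
    have hdis : ∀ i ∈ range (K / (g + 1)), ∀ j ∈ range (K / (g + 1)), i < j →
        Disjoint (Icc (st K g i) (st K g i + g) ∪ V (st K g i) g) (Icc (st K g j) (st K g j + g) ∪ V (st K g j) g) := by
      intro i hi j hj hij
      obtain ⟨h1, h2⟩ := hstK i hi
      obtain ⟨h3, h4⟩ := hstK j hj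
      have h5 := hsep i j hij
      rw [disjoint_left]
      intro n hn hn'
      unfold V at hn hn'
      rw [mem_union, mem_Icc, mem_Ioo] at hn hn'
      rcases hn with hn | hn <;> rcases hn' with hn' | hn'
      · omega
      · nlinarith [hn.2, hn'.1]
      · nlinarith [hn.1, hn'.2]
      · have h6 : (st K g i + g) ^ 2 ≤ (st K g j) ^ 2 := Nat.pow_le_pow_left h5.le 2
        omega
    have hp : ∀ j ∈ range (K / (g + 1)), Real.exp (-(κ * L)) ≤
        ∑ T ∈ (Icc (st K g j) (st K g j + g) ∪ V (st K g j) g).powerset with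
          (T ∩ Icc (st K g j) (st K g j + g) = {st K g j, st K g j + g} ∧ Dv c η (V (st K g j) g) (Real.log (st K g j))
          (T ∩ V (st K g j) g)), cramerOn (Icc (st K g j) (st K g j + g) ∪ V (st K g j) g) T := by
      intro j hj
      obtain ⟨h1, h2⟩ := hstK j hj
      obtain ⟨h3, h4⟩ := hlogm j hj
      obtain ⟨m, hm⟩ : ∃ m, m = st K g j := ⟨_, rfl⟩
      have hd := hdUV j hj
      rw [← hm] at h1 h2 h3 h4 hd ⊢
      rw [sum_union_pair hd (fun T => T = {m, m + g}) (fun T => Dv c η (V m g) (Real.log m) T)]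
      have hm3 : 3 ≤ m := by omega
      have hV3 : ∀ n ∈ V m g, 3 ≤ n := fun n hn => mem_V hm3 hn
      have e1 : ∑ T ∈ (Icc m (m + g)).powerset with T = {m, m + g}, cramerOn (Icc m (m + g)) T =
          cramerOn (Icc m (m + g)) {m, m + g} := by
        have : ((Icc m (m + g)).powerset.filter (fun T => T = {m, m + g})) = {{m, m + g}} := by
          ext T
          simp only [mem_filter, mem_powerset, mem_singleton]
          constructor
          · exact fun h => h.2
          · rintro rfl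
            refine ⟨?_, rfl⟩
            intro n hn
            rw [mem_insert, mem_singleton] at hn
            rw [mem_Icc]
            omega
        rw [this, sum_singleton]
      rw [e1]
      -- the window
      have hlogV : ∀ n ∈ V m g, 1 / Real.log (n : ℝ) ≤ 1 / L0 := by
        intro n hn
        unfold V at hn
        rw [mem_Ioo] at hn
        refine one_div_le_one_div_of_le (by linarith) ?_
        have e2 : (m : ℝ) ≤ n := by
          have : m ≤ n := by nlinarith [hn.1]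
          exact_mod_cast this
        have e3 := Real.log_le_log (by exact_mod_cast (show 0 < m by omega)) e2
        linarith
      have hmuV : L0 * Real.log m ≤ mu (V m g) := by
        have hg3 : (g : ℝ) ≤ 3 * Real.log m ^ 2 := by
          have : L ^ 2 ≤ Real.log m ^ 2 := by gcongr
          nlinarith
        have e2 := (abs_le.1 (a9 m h1 g hg1 hg3)).1
        have e3 := a10 m h1
        rw [Real.rpow_one] at e3
        obtain ⟨ℓ, hℓ⟩ : ∃ ℓ, ℓ = Real.log (m : ℝ) := ⟨_, rfl⟩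
        rw [← hℓ] at e2 e3 h3 h4 ⊢
        have hm0 : (3 : ℝ) ≤ m := by exact_mod_cast hm3
        have hg1' : (1 : ℝ) ≤ g := by exact_mod_cast hg1
        obtain ⟨x, hx⟩ : ∃ x : ℝ, x = g * m := ⟨_, rfl⟩
        rw [← hx] at e2
        have hxm : (m : ℝ) ≤ x := by rw [hx]; nlinarith
        obtain ⟨r, hr⟩ : ∃ r, r = √x := ⟨_, rfl⟩
        have hr0 : 0 < r := by rw [hr]; exact Real.sqrt_pos.2 (by linarith)
        have hr2 : r ^ 2 = x := by rw [hr]; exact Real.sq_sqrt (by linarith)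
        rw [← hr] at e2
        have hℓ0 : 0 < ℓ := by linarith
        -- x ≥ 4 (L0+1) ℓ^2, so r ≥ 2 ℓ, and x/ℓ ≥ 4(L0+1) ℓ
        have e4 : 4 * (L0 + 1) * ℓ ^ 2 ≤ x := by linarith
        have e5 : 2 * ℓ ≤ r := by
          refine le_of_sq_le_sq (?_ : (2 * ℓ) ^ 2 ≤ r ^ 2) hr0.le
          rw [hr2]
          nlinarith [sq_nonneg ℓ]
        have e6 : η * r ≤ x / ℓ / 2 := by
          rw [div_div, le_div_iff₀ (by positivity), ← hr2]
          have e61 : η * (2 * ℓ) ≤ 1 * r := mul_le_mul (by linarith) e5 (by linarith) (by norm_num)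
          have e62 : η * (2 * ℓ) * r ≤ 1 * r * r := mul_le_mul_of_nonneg_right e61 hr0.le
          nlinarith
        have e7 : 2 * (L0 + 1) * ℓ ≤ x / ℓ / 2 := by
          rw [div_div, le_div_iff₀ (by positivity)]
          nlinarith
        nlinarith
      have e2 := hwin (V m g) (Real.log m) hV3 hlogV (by linarith) hmuV
      have e3 := a2' m h1 h2 hgK'
      refine le_trans ?_ (mul_le_mul e3 e2 (Real.exp_pos _).le (cramerOn_nonneg (fun n hn => by
        rw [mem_Icc] at hn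
        omega) (fun n hn => by
        rw [mem_insert, mem_singleton] at hn
        rw [mem_Icc]
        omega)))
      rw [← Real.exp_add]
      refine Real.exp_le_exp.2 ?_
      have e4 : (g : ℝ) / L ≤ (β + η) * L := by
        rw [div_le_iff₀ (by linarith)]
        linarith
      have e5 : (|c| + η) ^ 2 * Real.log m ≤ (|c| + η) ^ 2 * L + 2 := by
        have e6 : (|c| + η) ^ 2 ≤ 2 := by
          have := abs_nonneg c
          nlinarith
        have e7 : (|c| + η) ^ 2 * Real.log m ≤ (|c| + η) ^ 2 * (L + 1) := by gcongr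
        linarith
      have e6 : (1 + η) * (g / L) ≤ (1 + η) * ((β + η) * L) := mul_le_mul_of_nonneg_left e4 (by linarith)
      have e7 : ((β + η) * (1 + η) + (|c| + η) ^ 2 + 2 * η) * L ≤ κ * L := mul_le_mul_of_nonneg_right hexpo (by linarith)
      nlinarith
    have hnone := none_le hA (range (K / (g + 1))) (fun j => Icc (st K g j) (st K g j + g) ∪ V (st K g j) g) hmem3
      (fun i hi j hj hij => by
        rcases lt_or_gt_of_ne hij with h | h
        · exact hdis i hi j hj h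
        · exact (hdis j hj i hi h).symm)
      (fun j T => T ∩ Icc (st K g j) (st K g j + g) = {st K g j, st K g j + g} ∧
        Dv c η (V (st K g j) g) (Real.log (st K g j)) (T ∩ V (st K g j) g)) hp
    refine hnone.trans ?_
    -- K^s ≥ log K
    rw [card_range]
    have e1 : (K : ℝ) / (2 * (g + 1)) ≤ ((K / (g + 1) : ℕ) : ℝ) := by
      have h1 : K < (g + 1) * (K / (g + 1) + 1) := Nat.lt_mul_div_succ K (by omega)
      have h2 : (K : ℝ) < (g + 1) * (((K / (g + 1) : ℕ) : ℝ) + 1) := by exact_mod_cast h1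
      rw [div_le_iff₀ (by positivity)]
      nlinarith
    have e2 : Real.exp (-(κ * L)) = (K : ℝ) ^ (-κ) := by
      rw [Real.rpow_def_of_pos hK0, ← hL]
      ring_nf
    rw [Real.rpow_def_of_pos hK0, ← hL]
    refine Real.exp_le_exp.2 ?_
    have e3 : L ≤ (K : ℝ) ^ s := by
      rw [pow_one, one_mul] at a8
      exact a8
    have e4 : (K : ℝ) ^ s ≤ ((K / (g + 1) : ℕ) : ℝ) * Real.exp (-(κ * L)) := by
      rw [e2]
      have e5 : (K : ℝ) ^ s * (K : ℝ) ^ s * (K : ℝ) ^ (κ - 1) = 1 := by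
        rw [← Real.rpow_add hK0, ← Real.rpow_add hK0, hs]
        have : (1 - κ) / 2 + (1 - κ) / 2 + (κ - 1) = 0 := by ring
        rw [this, Real.rpow_zero]
      have e6 : (K : ℝ) ^ (-κ) * K = (K : ℝ) ^ s * (K : ℝ) ^ s := by
        have e61 : (K : ℝ) ^ (-κ) * K = (K : ℝ) ^ (-κ) * (K : ℝ) ^ (1 : ℝ) := by rw [Real.rpow_one]
        rw [e61, ← Real.rpow_add hK0, ← Real.rpow_add hK0, hs]
        congr 1
        ring
      have e7 : 2 * ((g : ℝ) + 1) ≤ (K : ℝ) ^ s := by nlinarith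
      have e8 := Real.rpow_pos_of_pos hK0 s
      have e9 := Real.rpow_pos_of_pos hK0 (-κ)
      calc (K : ℝ) ^ s ≤ (K : ℝ) ^ s * (K : ℝ) ^ s / (2 * (g + 1)) := by
            rw [le_div_iff₀ (by positivity)]
            exact mul_le_mul_of_nonneg_left e7 e8.le
        _ = K / (2 * (g + 1)) * (K : ℝ) ^ (-κ) := by rw [← e6]; ring
        _ ≤ _ := mul_le_mul_of_nonneg_right e1 e9.le
    linarith
  have h3 := ae_all_grid (μ := μ) (τ := ℕ) (fun _ => ({0} : Finset ℕ))
    (fun i _ => {ω | ∀ j ∈ range (2 ^ i / (G (2 ^ i) + 1)),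
      ¬ (tr A (Icc (st (2 ^ i) (G (2 ^ i)) j) (st (2 ^ i) (G (2 ^ i)) j + G (2 ^ i)) ∪ V (st (2 ^ i) (G (2 ^ i)) j) (G (2 ^ i))) ω ∩
          Icc (st (2 ^ i) (G (2 ^ i)) j) (st (2 ^ i) (G (2 ^ i)) j + G (2 ^ i)) =
        {st (2 ^ i) (G (2 ^ i)) j, st (2 ^ i) (G (2 ^ i)) j + G (2 ^ i)} ∧
        Dv c η (V (st (2 ^ i) (G (2 ^ i)) j) (G (2 ^ i))) (Real.log (st (2 ^ i) (G (2 ^ i)) j))
        (tr A (Icc (st (2 ^ i) (G (2 ^ i)) j) (st (2 ^ i) (G (2 ^ i)) j + G (2 ^ i)) ∪ V (st (2 ^ i) (G (2 ^ i)) j) (G (2 ^ i))) ω ∩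
          V (st (2 ^ i) (G (2 ^ i)) j) (G (2 ^ i))))})
    (fun i => (((2 ^ i : ℕ) : ℝ)) ^ (-(1 : ℝ))) (summable_two_pow (by positivity)) (by
      filter_upwards [tendsto_two_pow.eventually hmain] with i hi
      rw [sum_singleton]
      exact hi)
  filter_upwards [h3] with ω hω
  filter_upwards [hω, tendsto_two_pow.eventually (eventually_forall_ge_atTop.2 (Dv_dvn hc1 hη0 hη1)),
    tendsto_two_pow.eventually (hG η hη0), tendsto_two_pow.eventually (eventually_ge_atTop 3)] with i h1 h2 h4 h5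
  have h1' := h1 0 (mem_singleton_self 0)
  obtain ⟨K, hK⟩ : ∃ K : ℕ, K = 2 ^ i := ⟨_, rfl⟩
  rw [← hK] at h1' h2 h4 h5 ⊢
  simp only [not_forall, not_not] at h1'
  obtain ⟨j, hj, hj1, hj2⟩ := h1'
  rw [tr_inter subset_union_left] at hj1
  rw [tr_inter subset_union_right] at hj2
  have hjK : K ≤ st K (G K) j ∧ st K (G K) j < 2 * K := by
    rw [mem_range] at hj
    have h6 : (j + 1) * (G K + 1) ≤ K := by
      have := Nat.div_mul_le_self K (G K + 1)
      have h2 : (j + 1) * (G K + 1) ≤ K / (G K + 1) * (G K + 1) := Nat.mul_le_mul_right _ hj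
      omega
    unfold st
    constructor
    · omega
    · have h2 : (j + 1) * (G K + 1) = j * (G K + 1) + (G K + 1) := by ring
      omega
  have hgm : (G K : ℝ) ≤ 3 * Real.log (st K (G K) j) ^ 2 := by
    have hK3 : (3 : ℝ) ≤ K := by exact_mod_cast h5
    have e1 : Real.log (K : ℝ) ≤ Real.log (st K (G K) j) := Real.log_le_log (by linarith) (by exact_mod_cast hjK.1)
    have e2 : 0 ≤ Real.log (K : ℝ) := Real.log_nonneg (by linarith)
    have e3 : Real.log (K : ℝ) ^ 2 ≤ Real.log (st K (G K) j) ^ 2 := by gcongr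
    have e4 : 0 ≤ Real.log (K : ℝ) ^ 2 := by positivity
    nlinarith
  refine ⟨st K (G K) j, hjK.1, hjK.2, cons_of_tr hj1, ?_⟩
  have e1 := h2 _ hjK.1 (G K) (hG1 K) hgm (A ω) _ (by rw [NV_eq]) hj2
  linarith

end

end Pool.Agent.Q106.BR
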