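import Pool.Agent.Q106.BR.Upper
import Pool.Agent.Q106.BR.Lower

/-!
# The elements in increasing order, the gaps and the numbers of elements between the squares
-/

set_option autoImplicit false

namespace Pool.Agent.Q106.BR

open Finset MeasureTheory Filter Pool.Agent.Q120.MF
open Pool.Agent.Q120.AD (hl)
open scoped Topology

/-- The `n`-th element. -/
noncomputable def el (S : Set ℕ) (n : ℕ) : ℕ := Nat.nth (· ∈ S) n

/-- The gap after the `n`-th element. -/
noncomputable def gp (S : Set ℕ) (n : ℕ) : ℕ := el S (n + 1) - el S n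

/-- The number of the elements strictly between the squares of the `n`-th and the next element. -/
noncomputable def NB (S : Set ℕ) (n : ℕ) : ℕ := Set.ncard {k | k ∈ S ∧ el S n ^ 2 < k ∧ k < el S (n + 1) ^ 2}

/-- The normalised gap. -/
noncomputable def bt (S : Set ℕ) (n : ℕ) : ℝ := gp S n / Real.log (el S n) ^ 2

/-- The normalised deviation of the number of the elements between the squares. -/
noncomputable def dv (S : Set ℕ) (n : ℕ) : ℝ :=
  (NB S n - gp S n * el S n / Real.log (el S n)) / √(2 * gp S n * el S n)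

section

variable {S : Set ℕ}

theorem el_mem (hS : S.Infinite) (n : ℕ) : el S n ∈ S := Nat.nth_mem_of_infinite hS n

theorem el_mono (hS : S.Infinite) : StrictMono (el S) := Nat.nth_strictMono hS

theorem el_top (hS : S.Infinite) : Tendsto (el S) atTop atTop := (el_mono hS).tendsto_atTop

theorem gp_pos (hS : S.Infinite) (n : ℕ) : 1 ≤ gp S n := by
  have := el_mono hS (Nat.lt_succ_self n)
  unfold gp
  simp only [Nat.succ_eq_add_one] at this
  omega

theorem el_succ (hS : S.Infinite) (n : ℕ) : el S n + gp S n = el S (n + 1) := by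
  have := el_mono hS (Nat.lt_succ_self n)
  unfold gp
  simp only [Nat.succ_eq_add_one] at this
  omega

theorem emp_el (hS : S.Infinite) (n : ℕ) : Emp S (el S n) (gp S n) := by
  classical
  intro k h1 h2 h3
  rw [el_succ hS] at h2
  have h4 : el S (Nat.count (· ∈ S) k) = k := Nat.nth_count h3
  rw [← h4] at h1 h2
  have h5 := (el_mono hS).lt_iff_lt.1 h1
  have h6 := (el_mono hS).lt_iff_lt.1 h2
  omega

theorem NB_eq (hS : S.Infinite) (n : ℕ) : NB S n = NV S (el S n) (gp S n) := by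
  classical
  unfold NB NV V
  rw [← Set.ncard_coe_finset]
  congr 1
  ext k
  simp only [Set.mem_ofPred_eq, coe_filter, mem_Ioo]
  rw [el_succ hS]
  tauto

theorem dv_eq (hS : S.Infinite) (n : ℕ) : dv S n = dvn S (el S n) (gp S n) := by
  unfold dv dvn
  rw [NB_eq hS]

theorem cons_el (hS : S.Infinite) {m g : ℕ} (hg : 1 ≤ g) (h : Cons S m g) : ∃ n, el S n = m ∧ gp S n = g := by
  classical
  obtain ⟨h1, h2, h3⟩ := h
  have h4 : el S (Nat.count (· ∈ S) m) = m := Nat.nth_count h1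
  have h5 : el S (Nat.count (· ∈ S) (m + g)) = m + g := Nat.nth_count h2
  refine ⟨Nat.count (· ∈ S) m, h4, ?_⟩
  obtain ⟨n, hn⟩ : ∃ n, n = Nat.count (· ∈ S) m := ⟨_, rfl⟩
  obtain ⟨n', hn'⟩ : ∃ n', n' = Nat.count (· ∈ S) (m + g) := ⟨_, rfl⟩
  rw [← hn] at h4 ⊢
  rw [← hn'] at h5
  have h6 : n < n' := by
    rw [← (el_mono hS).lt_iff_lt, h4, h5]
    omega
  have h7 : n + 1 = n' := by
    by_contra hcon
    have h8 : n + 1 < n' := by omega
    have h9 := (el_mono hS) h8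
    have h10 := (el_mono hS) (Nat.lt_succ_self n)
    rw [h5] at h9
    rw [h4] at h10
    exact h3 _ h10 h9 (el_mem hS _)
  unfold gp
  rw [h7, h5, h4]
  omega

/-- From blocks to the indices. -/
theorem freq_of (hS : S.Infinite) {P : ℕ → ℕ → Prop}
    (h : ∀ᶠ i : ℕ in atTop, ∃ m g, 2 ^ i ≤ m ∧ 1 ≤ g ∧ Cons S m g ∧ P m g) : ∃ᶠ n in atTop, P (el S n) (gp S n) := by
  rw [frequently_atTop]
  intro N
  obtain ⟨i₀, hi₀⟩ := eventually_atTop.1 h
  obtain ⟨m, g, h1, h2, h3, h4⟩ := hi₀ (max i₀ (el S N)) (le_max_left _ _)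
  obtain ⟨n, rfl, rfl⟩ := cons_el hS h2 h3
  refine ⟨n, ?_, h4⟩
  have h5 : el S N < el S n := by
    have e1 : el S N < 2 ^ el S N := Nat.lt_two_pow_self
    have e2 : 2 ^ el S N ≤ 2 ^ max i₀ (el S N) := Nat.pow_le_pow_right (by norm_num) (le_max_right _ _)
    omega
  exact ((el_mono hS).lt_iff_lt.1 h5).le

/-- The gap of a given normalised size. -/
noncomputable def Gb (β : ℝ) (K : ℕ) : ℕ := ⌊β * Real.log K ^ 2⌋₊ + 1

theorem Gb_le {β : ℝ} (hβ : 0 ≤ β) {δ : ℝ} (hδ : 0 < δ) : ∀ᶠ K : ℕ in atTop, (Gb β K : ℝ) ≤ (β + δ) * Real.log K ^ 2 := by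
  filter_upwards [hl.eventually_ge_atTop (1 / δ + 1)] with K h1
  have h2 : 0 ≤ β * Real.log K ^ 2 := by positivity
  have h3 := Nat.floor_le h2
  unfold Gb
  push_cast
  have h4 : 0 < 1 / δ := by positivity
  have h5 : 1 ≤ δ * Real.log K ^ 2 := by
    have h6 : 1 / δ * δ = 1 := by field_simp
    have h7 : 1 / δ * δ ≤ Real.log K * δ := mul_le_mul_of_nonneg_right (by linarith) hδ.le
    have h8 : Real.log K * δ * 1 ≤ Real.log K * δ * Real.log K := mul_le_mul_of_nonneg_left (by linarith) (by nlinarith)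
    nlinarith
  linarith

theorem Gb_near {β : ℝ} (hβ : 0 ≤ β) {δ : ℝ} (hδ : 0 < δ) : ∀ᶠ K : ℕ in atTop, ∀ m : ℕ, K ≤ m → m < 2 * K →
    |(Gb β K : ℝ) / Real.log m ^ 2 - β| ≤ δ := by
  obtain ⟨δ', hδ'⟩ : ∃ δ', δ' = min 1 (δ / (4 * (β + 1))) := ⟨_, rfl⟩
  have hδ'0 : 0 < δ' := by rw [hδ']; positivity
  have hδ'1 : δ' ≤ 1 := by rw [hδ']; exact min_le_left _ _
  have hδ'2 : 4 * (β + 1) * δ' ≤ δ := by
    have h1 : δ' ≤ δ / (4 * (β + 1)) := by rw [hδ']; exact min_le_right _ _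
    rw [le_div_iff₀ (by positivity)] at h1
    linarith
  filter_upwards [Gb_le hβ hδ'0, hl.eventually_ge_atTop (1 / δ'), hl.eventually_ge_atTop 1, eventually_ge_atTop 1]
    with K h1 h2 h2' h3 m hm1 hm2
  have hK0 : (0 : ℝ) < K := by exact_mod_cast h3
  obtain ⟨L, hL⟩ : ∃ L, L = Real.log (K : ℝ) := ⟨_, rfl⟩
  obtain ⟨ℓ, hℓ⟩ : ∃ ℓ, ℓ = Real.log (m : ℝ) := ⟨_, rfl⟩
  have e1 : L ≤ ℓ := by
    rw [hL, hℓ]
    exact Real.log_le_log hK0 (by exact_mod_cast hm1)
  have e2 : ℓ ≤ L + 1 := by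
    rw [hL, hℓ]
    have e3 : (m : ℝ) ≤ 2 * K := by exact_mod_cast hm2.le
    refine (Real.log_le_log (by exact_mod_cast (show 0 < m by omega)) e3).trans ?_
    rw [Real.log_mul (by norm_num) hK0.ne']
    linarith [Real.log_two_lt_d9]
  rw [← hL] at h1 h2 h2'
  rw [← hℓ]
  have hL0 : 0 < L := by linarith
  have hℓ0 : 0 < ℓ := by linarith
  have hG : β * L ^ 2 ≤ Gb β K := by
    unfold Gb
    rw [← hL]
    push_cast
    exact (Nat.lt_floor_add_one _).le
  -- L ≥ (1 - δ') ℓ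
  have e3 : (1 - δ') * ℓ ≤ L := by
    have e4 : 1 ≤ δ' * L := by
      rw [div_le_iff₀ hδ'0] at h2
      linarith
    nlinarith
  have e5 : (1 - 2 * δ') * ℓ ^ 2 ≤ L ^ 2 := by
    have e6 : ((1 - δ') * ℓ) ^ 2 ≤ L ^ 2 := by
      apply pow_le_pow_left₀ (mul_nonneg (by linarith) hℓ0.le) e3
    nlinarith [sq_nonneg (δ' * ℓ)]
  have e6 : L ^ 2 ≤ ℓ ^ 2 := by gcongr
  have hℓ2 : 0 < ℓ ^ 2 := by positivity
  rw [abs_le]
  constructor
  · rw [neg_le_sub_iff_le_add, ← sub_le_iff_le_add, le_div_iff₀ hℓ2]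
    have e7 : β * ((1 - 2 * δ') * ℓ ^ 2) ≤ β * L ^ 2 := mul_le_mul_of_nonneg_left e5 hβ
    have e8 : 2 * β * δ' ≤ δ := by nlinarith
    nlinarith
  · rw [sub_le_iff_le_add, div_le_iff₀ hℓ2]
    have e7 : (β + δ') * L ^ 2 ≤ (β + δ') * ℓ ^ 2 := mul_le_mul_of_nonneg_left e6 (by linarith)
    have e8 : δ' ≤ δ := by nlinarith
    nlinarith

end

end Pool.Agent.Q106.BR
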