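import Pool.Agent.Q166.SqJ

/-!
# Windows between the squares of two integers at a small distance
-/

set_option autoImplicit false

namespace Pool.Agent.Q106.BR

open Finset MeasureTheory Filter Pool.Agent.Q120.ET Pool.Agent.Q120.MF Pool.Agent.Q120.AD Pool.Agent.Q120.NC
  Pool.Agent.Q120.TD Pool.Agent.Q166.Sq
open scoped Topology

theorem ev_pw (D : ℝ) (j : ℕ) {ε : ℝ} (hε : 0 < ε) : ∀ᶠ x : ℕ in atTop, D * Real.log x ^ j ≤ (x : ℝ) ^ ε := by
  have h1 := isLittleO_log_rpow_rpow_atTop (j : ℝ) hε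
  have h2 := h1.bound (show 0 < 1 / (|D| + 1) by positivity)
  have h3 := (tendsto_natCast_atTop_atTop (R := ℝ)).eventually h2
  filter_upwards [h3, eventually_ge_atTop 1] with x hx hx1
  have hx1' : (1 : ℝ) ≤ x := by exact_mod_cast hx1
  have hL : 0 ≤ Real.log (x : ℝ) := Real.log_nonneg hx1'
  rw [Real.rpow_natCast, Real.norm_of_nonneg (by positivity), Real.norm_of_nonneg (by positivity)] at hx
  have h4 : D * Real.log x ^ j ≤ (|D| + 1) * Real.log x ^ j := by
    apply mul_le_mul_of_nonneg_right _ (by positivity)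
    linarith [le_abs_self D]
  refine h4.trans ?_
  have h5 : (|D| + 1) * Real.log x ^ j ≤ (|D| + 1) * (1 / (|D| + 1) * (x : ℝ) ^ ε) :=
    mul_le_mul_of_nonneg_left hx (by positivity)
  refine h5.trans (le_of_eq ?_)
  field_simp

/-- The integers strictly between the squares of `m` and `m + g`. -/
def V (m g : ℕ) : Finset ℕ := Ioo (m ^ 2) ((m + g) ^ 2)

/-- The integers strictly between `m` and `m + g`. -/
def U (m g : ℕ) : Finset ℕ := Ioo m (m + g)

theorem card_V {m g : ℕ} (hg : 1 ≤ g) : ((V m g).card : ℝ) = 2 * g * m + g ^ 2 - 1 := by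
  have h1 : m ^ 2 < (m + g) ^ 2 := Nat.pow_lt_pow_left (by omega) (by norm_num)
  have h2 : (V m g).card = (m + g) ^ 2 - m ^ 2 - 1 := by
    unfold V
    rw [Nat.card_Ioo]
  have h3 : (V m g).card + 1 + m ^ 2 = (m + g) ^ 2 := by omega
  have h4 : ((V m g).card : ℝ) + 1 + (m : ℝ) ^ 2 = ((m : ℝ) + g) ^ 2 := by exact_mod_cast h3
  nlinarith

theorem card_U (m g : ℕ) : (U m g).card = g - 1 := by
  unfold U
  rw [Nat.card_Ioo]
  omega

theorem mem_V {m g n : ℕ} (hm : 3 ≤ m) (h : n ∈ V m g) : 3 ≤ n := by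
  unfold V at h
  rw [mem_Ioo] at h
  nlinarith [h.1]

/-- The mean number of elements. -/
theorem mu_V {η : ℝ} (hη : 0 < η) : ∀ᶠ m : ℕ in atTop, ∀ g : ℕ, 1 ≤ g → (g : ℝ) ≤ 3 * Real.log m ^ 2 →
    |mu (V m g) - g * m / Real.log m| ≤ η * √(g * m) := by
  filter_upwards [ev_pw (27 / η ^ 2) 6 (show (0 : ℝ) < 1 by norm_num), hl.eventually_ge_atTop 1,
    eventually_ge_atTop 3] with m h1 h2 h3 g hg hgm
  rw [Real.rpow_one] at h1
  have hm3 : (3 : ℝ) ≤ m := by exact_mod_cast h3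
  have hg1 : (1 : ℝ) ≤ g := by exact_mod_cast hg
  obtain ⟨L, hL⟩ : ∃ L, L = Real.log (m : ℝ) := ⟨_, rfl⟩
  rw [← hL] at h1 h2 hgm ⊢
  have hL0 : 0 < L := by linarith
  -- all logarithms
  have hup : mu (V m g) ≤ (2 * g * m + g ^ 2 - 1) / (2 * L) := by
    rw [← card_V hg]
    unfold mu
    have e1 : ∀ n ∈ V m g, 1 / Real.log (n : ℝ) ≤ 1 / (2 * L) := by
      intro n hn
      unfold V at hn
      rw [mem_Ioo] at hn
      refine one_div_le_one_div_of_le (by positivity) ?_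
      have e2 : ((m : ℝ)) ^ 2 ≤ n := by exact_mod_cast hn.1.le
      have e3 := Real.log_le_log (by positivity) e2
      rw [Real.log_pow, ← hL] at e3
      exact_mod_cast e3
    refine (sum_le_sum e1).trans ?_
    rw [sum_const, nsmul_eq_mul, mul_one_div]
  have hlow : (2 * g * m + g ^ 2 - 1) / (2 * (L + g / m)) ≤ mu (V m g) := by
    rw [← card_V hg]
    unfold mu
    have e1 : ∀ n ∈ V m g, 1 / (2 * (L + g / m)) ≤ 1 / Real.log (n : ℝ) := by
      intro n hn
      have hn3 := mem_V h3 hn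
      unfold V at hn
      rw [mem_Ioo] at hn
      have hn0 : (0 : ℝ) < n := by exact_mod_cast (show 0 < n by omega)
      refine one_div_le_one_div_of_le (by linarith [one_lt_log hn3]) ?_
      have e2 : (n : ℝ) ≤ ((m : ℝ) + g) ^ 2 := by exact_mod_cast hn.2.le
      have e3 := Real.log_le_log hn0 e2
      rw [Real.log_pow] at e3
      have e4 : (m : ℝ) + g = m * (1 + g / m) := by field_simp
      rw [e4, Real.log_mul (by positivity) (by positivity)] at e3
      have e5 := Real.log_le_sub_one_of_pos (show (0 : ℝ) < 1 + g / m by positivity)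
      push_cast at e3
      rw [← hL] at e3
      linarith
    refine le_trans ?_ (sum_le_sum e1)
    rw [sum_const, nsmul_eq_mul, mul_one_div]
  have hsm : (g : ℝ) ^ 2 ≤ η * √(g * m) := by
    rw [← Real.sqrt_sq (show (0 : ℝ) ≤ g ^ 2 by positivity), ← Real.sqrt_sq hη.le, ← Real.sqrt_mul (by positivity)]
    apply Real.sqrt_le_sqrt
    have e1 : (g : ℝ) ^ 3 ≤ 27 * L ^ 6 := by
      calc (g : ℝ) ^ 3 ≤ (3 * L ^ 2) ^ 3 := by gcongr
        _ = 27 * L ^ 6 := by ring
    have e2 : 27 * L ^ 6 ≤ η ^ 2 * m := by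
      have e3 : 27 / η ^ 2 * L ^ 6 ≤ m := h1
      rw [div_mul_eq_mul_div, div_le_iff₀ (by positivity)] at e3
      linarith
    calc ((g : ℝ) ^ 2) ^ 2 = g * g ^ 3 := by ring
      _ ≤ g * (η ^ 2 * m) := by gcongr; linarith
      _ = η ^ 2 * (g * m) := by ring
  rw [abs_le]
  constructor
  · -- lower bound
    have e1 : (g : ℝ) * m / L - g ^ 2 ≤ (2 * g * m + g ^ 2 - 1) / (2 * (L + g / m)) := by
      rw [le_div_iff₀ (by positivity)]
      have e2 : (g : ℝ) * m / L * (2 * (L + g / m)) = 2 * g * m + 2 * g ^ 2 / L := by field_simp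
      have e3 : 2 * (g : ℝ) ^ 2 / L ≤ 2 * g ^ 2 := div_le_self (by positivity) h2
      have e4 : 0 ≤ (g : ℝ) / m := by positivity
      have e5 : (1 : ℝ) ≤ g ^ 2 := by nlinarith
      have e6 : 0 ≤ (g : ℝ) ^ 2 * (g / m) := by positivity
      nlinarith
    linarith
  · have e1 : (2 * g * m + g ^ 2 - 1) / (2 * L) ≤ (g : ℝ) * m / L + g ^ 2 := by
      rw [div_le_iff₀ (by positivity)]
      have e2 : ((g : ℝ) * m / L + g ^ 2) * (2 * L) = 2 * g * m + 2 * g ^ 2 * L := by field_simp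
      nlinarith [sq_nonneg (g : ℝ)]
    linarith

end Pool.Agent.Q106.BR
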