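import Pool.Agent.Q106.BR.Up

/-!
# Joint lower bound: pairs of consecutive elements with a given gap and a given deviation
-/

set_option autoImplicit false

namespace Pool.Agent.Q106.BR

open Finset MeasureTheory Filter Pool.Agent.Q120.ET Pool.Agent.Q120.MF Pool.Agent.Q120.AD Pool.Agent.Q120.NC
  Pool.Agent.Q120.TD Pool.Agent.Q166.Sq
open scoped Topology

/-- The elements of a window deviate by `c` standard units. -/
def Dv (c η : ℝ) (W : Finset ℕ) (L : ℝ) (T : Finset ℕ) : Prop :=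
  |((T.card : ℝ) - mu W) - c * √(2 * mu W * L)| ≤ 2 * η * √(2 * mu W * L)

noncomputable instance (c η : ℝ) (W : Finset ℕ) (L : ℝ) : DecidablePred (Dv c η W L) := fun _ => Classical.dec _

theorem window_any {c η : ℝ} (hc : |c| ≤ 1) (hη : 0 < η) (hη1 : η ≤ 1) :
    ∃ L0 : ℝ, 1 ≤ L0 ∧ ∀ (W : Finset ℕ) (L : ℝ), (∀ n ∈ W, 3 ≤ n) →
      (∀ n ∈ W, 1 / Real.log (n : ℝ) ≤ 1 / L0) → L0 ≤ L → L0 * L ≤ mu W →
      Real.exp (-((|c| + η) ^ 2 * L)) ≤ ∑ T ∈ W.powerset with Dv c η W L T, cramerOn W T := by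
  classical
  rcases le_or_gt 0 c with h | h
  · obtain ⟨L0, h1, h2⟩ := window_up (c := c) (ε := η) h (by rwa [abs_of_nonneg h] at hc) hη hη1
    refine ⟨L0, h1, fun W L a1 a2 a3 a4 => ?_⟩
    rw [abs_of_nonneg h]
    refine (h2 W L a1 a2 a3 a4).trans (sum_le_sum_of_subset_of_nonneg (fun T hT => ?_) (fun T hT _ => ?_))
    · rw [mem_filter] at hT ⊢
      refine ⟨hT.1, ?_⟩
      obtain ⟨b1, b2⟩ := hT.2
      have b3 : 0 ≤ √(2 * mu W * L) := Real.sqrt_nonneg _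
      unfold Dv
      rw [abs_le]
      constructor <;> nlinarith
    · exact cramerOn_nonneg a1 (mem_powerset.1 (mem_filter.1 hT).1)
  · obtain ⟨L0, h1, h2⟩ := window_down (c := -c) (ε := η) (by linarith) (by rwa [abs_of_neg h] at hc) hη hη1
    refine ⟨L0, h1, fun W L a1 a2 a3 a4 => ?_⟩
    rw [abs_of_neg h]
    refine (h2 W L a1 a2 a3 a4).trans (sum_le_sum_of_subset_of_nonneg (fun T hT => ?_) (fun T hT _ => ?_))
    · rw [mem_filter] at hT ⊢
      refine ⟨hT.1, ?_⟩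
      obtain ⟨b1, b2⟩ := hT.2
      have b3 : 0 ≤ √(2 * mu W * L) := Real.sqrt_nonneg _
      unfold Dv
      rw [abs_le]
      constructor <;> nlinarith
    · exact cramerOn_nonneg a1 (mem_powerset.1 (mem_filter.1 hT).1)

/-- From the deviation in standard units to the normalised deviation. -/
theorem Dv_dvn {c η : ℝ} (hc : |c| ≤ 1) (hη : 0 < η) (hη1 : η ≤ 1 / 4) : ∀ᶠ m : ℕ in atTop, ∀ g : ℕ, 1 ≤ g →
    (g : ℝ) ≤ 3 * Real.log m ^ 2 → ∀ S : Set ℕ, ∀ T : Finset ℕ, (T.card : ℝ) = NV S m g →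
    Dv c η (V m g) (Real.log m) T → |dvn S m g - c| ≤ 6 * η := by
  filter_upwards [mu_V hη, ev_pw (4 / η ^ 2) 2 (show (0 : ℝ) < 1 by norm_num), hl.eventually_ge_atTop 1,
    eventually_ge_atTop 3] with m h0 h1 h2 h3 g hg hgm S T hT hD
  have h0' := h0 g hg hgm
  have hm3 : (3 : ℝ) ≤ m := by exact_mod_cast h3
  have hg1 : (1 : ℝ) ≤ g := by exact_mod_cast hg
  unfold Dv at hD
  unfold dvn
  rw [← hT]
  obtain ⟨L, hL⟩ : ∃ L, L = Real.log (m : ℝ) := ⟨_, rfl⟩
  rw [← hL] at h1 h2 hgm h0' hD ⊢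
  have hL0 : 0 < L := by linarith
  obtain ⟨x, hx⟩ : ∃ x : ℝ, x = g * m := ⟨_, rfl⟩
  rw [show (2 : ℝ) * g * m = 2 * x by rw [hx]; ring]
  rw [← hx] at h0' ⊢
  have hx3 : 3 ≤ x := by rw [hx]; nlinarith
  have hx0 : 0 < x := by linarith
  obtain ⟨r, hr⟩ : ∃ r, r = √(2 * x) := ⟨_, rfl⟩
  have hr0 : 0 < r := by rw [hr]; exact Real.sqrt_pos.2 (by linarith)
  have hr2 : r ^ 2 = 2 * x := by rw [hr]; exact Real.sq_sqrt (by linarith)
  have hxr : √x ≤ r := by rw [hr]; exact Real.sqrt_le_sqrt (by linarith)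
  have hLr : 2 * L ≤ η * r := by
    rw [Real.rpow_one] at h1
    have e1 : (2 * L) ^ 2 ≤ (η * r) ^ 2 := by
      rw [mul_pow η, hr2]
      rw [div_mul_eq_mul_div, div_le_iff₀ (by positivity)] at h1
      have e2 : (m : ℝ) ≤ x := by rw [hx]; nlinarith
      have e3 : η ^ 2 * m ≤ η ^ 2 * x := by gcongr
      nlinarith [sq_nonneg η]
    exact le_of_sq_le_sq e1 (by positivity)
  rw [← hr]
  have hmu : |mu (V m g) - x / L| ≤ η * r := h0'.trans (mul_le_mul_of_nonneg_left hxr hη.le)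
  obtain ⟨M, hM⟩ : ∃ M, M = mu (V m g) := ⟨_, rfl⟩
  rw [← hM] at hD hmu
  obtain ⟨q, hq⟩ : ∃ q, q = √(2 * M * L) := ⟨_, rfl⟩
  have hM0 : 0 ≤ M := by rw [hM]; exact mu_nonneg
  have hq0 : 0 ≤ q := by rw [hq]; exact Real.sqrt_nonneg _
  have hq2 : q ^ 2 = 2 * M * L := by rw [hq]; exact Real.sq_sqrt (by positivity)
  rw [← hq] at hD
  -- q is close to r
  have hqr : |q - r| ≤ η * r := by
    have e1 : |q ^ 2 - r ^ 2| ≤ η * r * r := by
      rw [hq2, hr2]
      have e2 : 2 * M * L - 2 * x = 2 * L * (M - x / L) := by field_simp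
      rw [e2, abs_mul, abs_of_pos (show 0 < 2 * L by linarith)]
      calc 2 * L * |M - x / L| ≤ η * r * (η * r) := mul_le_mul hLr hmu (abs_nonneg _) (by positivity)
        _ = η * (η * r * r) := by ring
        _ ≤ 1 * (η * r * r) := by
          apply mul_le_mul_of_nonneg_right (by linarith) (by positivity)
        _ = η * r * r := one_mul _
    have e2 : q ^ 2 - r ^ 2 = (q - r) * (q + r) := by ring
    rw [e2, abs_mul, abs_of_pos (show 0 < q + r by linarith)] at e1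
    have e3 : |q - r| * r ≤ |q - r| * (q + r) := mul_le_mul_of_nonneg_left (by linarith) (abs_nonneg _)
    have e4 : |q - r| * r ≤ η * r * r := e3.trans e1
    exact le_of_mul_le_mul_right e4 hr0
  have hqr' := abs_le.1 hqr
  have hmu' := abs_le.1 hmu
  have hD' := abs_le.1 hD
  have hc' := abs_le.1 hc
  have e1 : |c * (q - r)| ≤ η * r := by
    rw [abs_mul]
    calc |c| * |q - r| ≤ 1 * |q - r| := mul_le_mul_of_nonneg_right hc (abs_nonneg _)
      _ ≤ η * r := by rw [one_mul]; exact hqr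
  have e1' := abs_le.1 e1
  have e2 : 2 * η * q ≤ 3 * η * r := by nlinarith [mul_pos hη hr0]
  have e3 : |((T.card : ℝ) - x / L) - c * r| ≤ 6 * η * r := by
    rw [abs_le]
    constructor <;> nlinarith
  have e4 : ((T.card : ℝ) - x / L) / r - c = (((T.card : ℝ) - x / L) - c * r) / r := by field_simp
  rw [e4, abs_div, abs_of_pos hr0, div_le_iff₀ hr0]
  exact e3

end Pool.Agent.Q106.BR
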