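import Pool.Agent.Q106.BR.Geo

/-!
# Joint upper bound for gaps and deviations
-/

set_option autoImplicit false

namespace Pool.Agent.Q106.BR

open Finset MeasureTheory Filter Pool.Agent.Q120.ET Pool.Agent.Q120.MF Pool.Agent.Q120.AD Pool.Agent.Q120.NC
  Pool.Agent.Q120.TD Pool.Agent.Q166.Sq
open scoped Topology

open Classical in
/-- The number of elements of `S` strictly between the squares of `m` and `m + g`. -/
noncomputable def NV (S : Set ℕ) (m g : ℕ) : ℕ := ((V m g).filter (fun k => k ∈ S)).card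

/-- The normalised deviation. -/
noncomputable def dvn (S : Set ℕ) (m g : ℕ) : ℝ := ((NV S m g : ℝ) - g * m / Real.log m) / √(2 * g * m)

/-- No element strictly between `m` and `m + g`. -/
def Emp (S : Set ℕ) (m g : ℕ) : Prop := ∀ k, m < k → k < m + g → k ∉ S

section

variable {Ω : Type*} [MeasurableSpace Ω] {μ : Measure Ω} [IsProbabilityMeasure μ] {A : Ω → Set ℕ}

omit [MeasurableSpace Ω] in
theorem NV_eq (ω : Ω) (m g : ℕ) : NV (A ω) m g = (tr A (V m g) ω).card := rfl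

theorem emp_iff (ω : Ω) (m g : ℕ) : Emp (A ω) m g ↔ Disjoint (tr A (U m g) ω) (U m g) := by
  rw [disjoint_left]
  unfold Emp U
  constructor
  · intro h k hk _
    rw [mem_tr, mem_Ioo] at hk
    exact h k hk.1.1 hk.1.2 hk.2
  · intro h k h1 h2 h3
    exact h (mem_tr.2 ⟨mem_Ioo.2 ⟨h1, h2⟩, h3⟩) (mem_Ioo.2 ⟨h1, h2⟩)

theorem real_two (hA : IsCramer μ A) {W X : Finset ℕ} (hW : ∀ n ∈ W, 3 ≤ n) (hX : ∀ n ∈ X, 3 ≤ n) (hd : Disjoint W X)
    (F G : Finset ℕ → Prop) [DecidablePred F] [DecidablePred G] :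
    μ.real {ω | F (tr A W ω) ∧ G (tr A X ω)} = μ.real {ω | F (tr A W ω)} * μ.real {ω | G (tr A X ω)} := by
  classical
  rw [real_pred hA hW F, real_pred hA hX G, ← sum_union_pair hd F G]
  have hU : ∀ n ∈ W ∪ X, 3 ≤ n := by
    intro n hn
    rcases mem_union.1 hn with h | h
    · exact hW n h
    · exact hX n h
  rw [← real_pred hA hU (fun T => F (T ∩ W) ∧ G (T ∩ X))]
  congr 1
  ext ω
  simp only [Set.mem_ofPred_eq]
  rw [tr_inter subset_union_left, tr_inter subset_union_right]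

theorem log_add_le {m g : ℕ} (hm : 1 ≤ m) : Real.log ((m : ℝ) + g) ≤ Real.log m + g / m := by
  have hm0 : (0 : ℝ) < m := by exact_mod_cast hm
  have e4 : (m : ℝ) + g = m * (1 + g / m) := by field_simp
  rw [e4, Real.log_mul (by positivity) (by positivity)]
  have e5 := Real.log_le_sub_one_of_pos (show (0 : ℝ) < 1 + g / m by positivity)
  linarith

/-- The probability of a long empty window. -/
theorem prob_emp (hA : IsCramer μ A) {η : ℝ} (hη : 0 < η) : ∀ᶠ m : ℕ in atTop, ∀ g : ℕ, 1 ≤ g → (g : ℝ) ≤ 3 * Real.log m ^ 2 →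
    μ.real {ω | Disjoint (tr A (U m g) ω) (U m g)} ≤ Real.exp (1 - g / Real.log m ^ 2 * (1 - η) * Real.log m) := by
  filter_upwards [ev_pw (3 / η) 1 (show (0 : ℝ) < 1 by norm_num), hl.eventually_ge_atTop 1,
    eventually_ge_atTop 3] with m h1 h2 h3 g hg hgm
  have hm3 : (3 : ℝ) ≤ m := by exact_mod_cast h3
  have hg1 : (1 : ℝ) ≤ g := by exact_mod_cast hg
  obtain ⟨L, hL⟩ : ∃ L, L = Real.log (m : ℝ) := ⟨_, rfl⟩
  rw [← hL] at h1 h2 hgm ⊢
  have hL0 : 0 < L := by linarith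
  have hU : ∀ n ∈ U m g, 3 ≤ n := by
    intro n hn
    unfold U at hn
    rw [mem_Ioo] at hn
    omega
  rw [real_free hA hU]
  refine (prod_le_exp hU (z := (m : ℝ) + g) (fun n hn => ?_)).trans (Real.exp_le_exp.2 ?_)
  · unfold U at hn
    rw [mem_Ioo] at hn
    exact_mod_cast hn.2.le
  have e1 := log_add_le (g := g) (show 1 ≤ m by omega)
  rw [← hL] at e1
  have e2 : (g : ℝ) / m ≤ η * L := by
    rw [div_le_iff₀ (by positivity)]
    have e3 : 3 / η * L ≤ m := by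
      rw [Real.rpow_one, pow_one] at h1
      exact h1
    rw [div_mul_eq_mul_div, div_le_iff₀ hη] at e3
    calc (g : ℝ) ≤ 3 * L ^ 2 := hgm
      _ = 3 * L * L := by ring
      _ ≤ m * η * L := by gcongr
      _ = η * L * m := by ring
  have e3 : Real.log ((m : ℝ) + g) ≤ (1 + η) * L := by linarith
  have e4 : 0 < Real.log ((m : ℝ) + g) := Real.log_pos (by linarith)
  have e5 : ((U m g).card : ℝ) = g - 1 := by
    rw [card_U, Nat.cast_sub hg]
    simp
  rw [e5]
  have e6 : ((g : ℝ) - 1) / ((1 + η) * L) ≤ (g - 1) / Real.log ((m : ℝ) + g) :=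
    div_le_div_of_nonneg_left (by linarith) e4 e3
  have e7 : (g : ℝ) / L ^ 2 * (1 - η) * L - 1 ≤ (g - 1) / ((1 + η) * L) := by
    rw [le_div_iff₀ (by positivity)]
    have e8 : ((g : ℝ) / L ^ 2 * (1 - η) * L - 1) * ((1 + η) * L) = g * (1 - η ^ 2) - (1 + η) * L := by
      field_simp
      ring
    rw [e8]
    have e9 : 0 ≤ (g : ℝ) * η ^ 2 := by positivity
    nlinarith
  linarith

/-- The probability of a deviation. -/
theorem prob_dev (hA : IsCramer μ A) {η : ℝ} (hη : 0 < η) (hη1 : η ≤ 1 / 100) : ∀ᶠ m : ℕ in atTop, ∀ g : ℕ, 1 ≤ g →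
    (g : ℝ) ≤ 3 * Real.log m ^ 2 → ∀ s : ℝ, 25 * η ≤ s → s ≤ 2 →
    μ.real {ω | s < (((tr A (V m g) ω).card : ℝ) - g * m / Real.log m) ^ 2 / (2 * g * m)} ≤
      4 * Real.exp (-((s - 9 * η) * Real.log m)) := by
  filter_upwards [mu_V hη, ev_pw (4 / η ^ 2) 2 (show (0 : ℝ) < 1 by norm_num), hl.eventually_ge_atTop 1,
    eventually_ge_atTop 3] with m h0 h1 h2 h3 g hg hgm s hs hs2
  have h0' := h0 g hg hgm
  have hm3 : (3 : ℝ) ≤ m := by exact_mod_cast h3
  have hg1 : (1 : ℝ) ≤ g := by exact_mod_cast hg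
  obtain ⟨L, hL⟩ : ∃ L, L = Real.log (m : ℝ) := ⟨_, rfl⟩
  rw [← hL] at h1 h2 hgm h0' ⊢
  have hL0 : 0 < L := by linarith
  obtain ⟨x, hx⟩ : ∃ x : ℝ, x = g * m := ⟨_, rfl⟩
  rw [show (2 : ℝ) * g * m = 2 * x by rw [hx]; ring]
  rw [← hx] at h0' ⊢
  have hx3 : 3 ≤ x := by rw [hx]; nlinarith
  have hx0 : 0 < x := by linarith
  obtain ⟨r, hr⟩ : ∃ r, r = √x := ⟨_, rfl⟩
  have hr0 : 0 < r := by rw [hr]; exact Real.sqrt_pos.2 hx0
  have hr2 : r ^ 2 = x := by rw [hr]; exact Real.sq_sqrt hx0.le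
  rw [← hr] at h0'
  -- L is small against r
  have hLr : 2 * L ≤ η * r := by
    rw [Real.rpow_one] at h1
    have e1 : (2 * L) ^ 2 ≤ (η * r) ^ 2 := by
      rw [mul_pow η, hr2]
      rw [div_mul_eq_mul_div, div_le_iff₀ (by positivity)] at h1
      have e2 : (m : ℝ) ≤ x := by rw [hx]; nlinarith
      have e3 : η ^ 2 * m ≤ η ^ 2 * x := by gcongr
      nlinarith
    exact le_of_sq_le_sq e1 (by positivity)
  obtain ⟨q, hq⟩ : ∃ q, q = √s := ⟨_, rfl⟩
  have hs0 : 0 < s := by linarith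
  have hq0 : 0 < q := by rw [hq]; exact Real.sqrt_pos.2 hs0
  have hq2 : q ^ 2 = s := by rw [hq]; exact Real.sq_sqrt hs0.le
  have hqη : 5 * η ≤ q := by
    have e1 : (5 * η) ^ 2 ≤ q ^ 2 := by rw [hq2]; nlinarith
    exact le_of_sq_le_sq e1 hq0.le
  have hq15 : q ≤ 3 / 2 := by
    have e1 : q ^ 2 ≤ (3 / 2) ^ 2 := by rw [hq2]; norm_num; linarith
    exact le_of_sq_le_sq e1 (by norm_num)
  obtain ⟨w, hw⟩ : ∃ w, w = √(2 : ℝ) := ⟨_, rfl⟩
  have hw0 : 0 < w := by rw [hw]; exact Real.sqrt_pos.2 (by norm_num)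
  have hw2 : w ^ 2 = 2 := by rw [hw]; exact Real.sq_sqrt (by norm_num)
  have hw1 : 1 ≤ w := by nlinarith
  have hw15 : w ≤ 3 / 2 := by nlinarith
  obtain ⟨t, ht⟩ : ∃ t, t = (q - η) * (w * r) := ⟨_, rfl⟩
  obtain ⟨M, hM⟩ : ∃ M, M = (1 + η) * (x / L) := ⟨_, rfl⟩
  have hqη' : 0 < q - η := by linarith
  have ht0 : 0 < t := by rw [ht]; positivity
  have hM0 : 0 < M := by rw [hM]; positivity
  have hmuM : mu (V m g) ≤ M := by
    have e1 := (abs_le.1 h0').2
    have e2 : η * r ≤ η * (x / L) := by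
      apply mul_le_mul_of_nonneg_left _ hη.le
      rw [le_div_iff₀ hL0, ← hr2]
      nlinarith
    rw [hM]
    linarith
  have htM : t ≤ η * 2 * M := by
    have e1 : t ≤ 9 / 4 * r := by
      rw [ht]
      have e2 : (q - η) * (w * r) ≤ 3 / 2 * (3 / 2 * r) := by
        apply mul_le_mul (by linarith) (by nlinarith) (by positivity) (by norm_num)
      linarith
    have e3 : 2 * r ≤ η * (x / L) := by
      rw [← hr2, ← mul_div_assoc, le_div_iff₀ hL0]
      nlinarith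
    have e4 : x / L ≤ M := by
      rw [hM]
      have : 0 ≤ η * (x / L) := by positivity
      linarith
    nlinarith
  have htM1 : t ≤ M := by nlinarith
  have hmain := tail_two hA (fun n hn => mem_V h3 hn) hmuM ht0 htM1
  refine (measureReal_mono (μ := μ) (fun ω hω => ?_) (measure_ne_top _ _)).trans (hmain.trans ?_)
  · -- the event
    have e1 : s < (((tr A (V m g) ω).card : ℝ) - x / L) ^ 2 / (2 * x) := hω
    rw [lt_div_iff₀ (by positivity)] at e1
    show t < |((tr A (V m g) ω).card : ℝ) - mu (V m g)|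
    have e2 : (q * (w * r)) ^ 2 < |((tr A (V m g) ω).card : ℝ) - x / L| ^ 2 := by
      rw [sq_abs, mul_pow, mul_pow, hq2, hw2, hr2]
      exact e1
    have e3 := lt_of_pow_lt_pow_left₀ 2 (abs_nonneg _) e2
    have e4 := abs_sub_abs_le_abs_sub (((tr A (V m g) ω).card : ℝ) - x / L) (mu (V m g) - x / L)
    have e5 : (((tr A (V m g) ω).card : ℝ) - x / L) - (mu (V m g) - x / L) = ((tr A (V m g) ω).card : ℝ) - mu (V m g) := by
      ring
    rw [e5] at e4
    have e6 : η * r ≤ η * (w * r) := by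
      apply mul_le_mul_of_nonneg_left _ hη.le
      nlinarith
    rw [ht]
    nlinarith
  · apply mul_le_mul_of_nonneg_left _ (by norm_num)
    refine Real.exp_le_exp.2 (neg_le_neg ?_)
    have e1 : t ^ 2 / (2 * M) = (q - η) ^ 2 * L / (1 + η) := by
      rw [ht, hM, mul_pow, mul_pow, hw2, hr2]
      field_simp
    have e2 : 1 - 2 * η ≤ 1 - t / M := by
      have : t / M ≤ η * 2 := by
        rw [div_le_iff₀ hM0]
        exact htM
      linarith
    rw [e1]
    have e3 : (s - 3 * η) ≤ (q - η) ^ 2 := by nlinarith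
    have e4 : (s - 3 * η) * (1 - η) * L ≤ (q - η) ^ 2 * L / (1 + η) := by
      rw [le_div_iff₀ (by positivity)]
      have e5 : (s - 3 * η) * (1 - η) * L * (1 + η) = (s - 3 * η) * L * (1 - η ^ 2) := by ring
      rw [e5]
      have e6 : (s - 3 * η) * L * (1 - η ^ 2) ≤ (s - 3 * η) * L := by
        have : 0 ≤ (s - 3 * η) * L := mul_nonneg (by linarith) hL0.le
        nlinarith [sq_nonneg η]
      nlinarith
    have e7 : (s - 3 * η) * (1 - η) * L * (1 - 2 * η) ≤ (q - η) ^ 2 * L / (1 + η) * (1 - t / M) :=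
      mul_le_mul e4 e2 (by linarith) (by positivity)
    refine le_trans ?_ e7
    have e8 : s - 9 * η ≤ (s - 3 * η) * (1 - η) * (1 - 2 * η) := by nlinarith [mul_nonneg (show 0 ≤ s - 3 * η by linarith) (sq_nonneg η)]
    nlinarith

end

end Pool.Agent.Q106.BR
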