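import Pool.Agent.Q106.BR.Up

/-!
# The joint upper bound, almost surely
-/

set_option autoImplicit false

namespace Pool.Agent.Q106.BR

open Finset MeasureTheory Filter Pool.Agent.Q120.ET Pool.Agent.Q120.MF Pool.Agent.Q120.AD Pool.Agent.Q120.NC
  Pool.Agent.Q120.TD Pool.Agent.Q166.Sq
open scoped Topology

section

variable {Ω : Type*} [MeasurableSpace Ω] {μ : Measure Ω} [IsProbabilityMeasure μ] {A : Ω → Set ℕ}

/-- The probability of an empty window together with a large deviation. -/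
theorem prob_joint (hA : IsCramer μ A) {ε : ℝ} (hε : 0 < ε) (hε1 : ε ≤ 1) : ∀ᶠ m : ℕ in atTop, ∀ g : ℕ, 1 ≤ g →
    (g : ℝ) ≤ 3 * Real.log m ^ 2 →
    μ.real {ω | Emp (A ω) m g ∧ 1 + ε < g / Real.log m ^ 2 + dvn (A ω) m g ^ 2} ≤
      12 * Real.exp (-((1 + ε / 2) * Real.log m)) := by
  classical
  obtain ⟨η, hη⟩ : ∃ η, η = ε / 100 := ⟨_, rfl⟩
  have hη0 : 0 < η := by rw [hη]; linarith
  have hη1 : η ≤ 1 / 100 := by rw [hη]; linarith
  filter_upwards [prob_emp hA hη0, prob_dev hA hη0 hη1, hl.eventually_ge_atTop 1, eventually_ge_atTop 4,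
    ev_pw 3 2 (show (0 : ℝ) < 1 by norm_num)] with m h1 h2 h3 h4 h5 g hg hgm
  have e1 := h1 g hg hgm
  have e2 := h2 g hg hgm
  have hm3 : (3 : ℝ) ≤ m := by exact_mod_cast (show 3 ≤ m by omega)
  have hg1 : (1 : ℝ) ≤ g := by exact_mod_cast hg
  obtain ⟨L, hL⟩ : ∃ L, L = Real.log (m : ℝ) := ⟨_, rfl⟩
  rw [← hL] at e1 h3 hgm h5 ⊢
  have hL0 : 0 < L := by linarith
  obtain ⟨β, hβ⟩ : ∃ β, β = (g : ℝ) / L ^ 2 := ⟨_, rfl⟩
  rw [← hβ] at e1 ⊢
  have hβ0 : 0 < β := by rw [hβ]; positivity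
  have hβ3 : β ≤ 3 := by
    rw [hβ, div_le_iff₀ (by positivity)]
    exact hgm
  have hexp1 : Real.exp 1 ≤ 3 := Real.exp_one_lt_d9.le.trans (by norm_num)
  by_cases hc : 1 + 3 / 4 * ε ≤ β
  · -- the empty window alone
    refine (measureReal_mono (μ := μ) (s₂ := {ω | Disjoint (tr A (U m g) ω) (U m g)})
      (fun ω hω => (emp_iff ω m g).1 hω.1) (measure_ne_top _ _)).trans (e1.trans ?_)
    have e3 : Real.exp (1 - β * (1 - η) * L) = Real.exp 1 * Real.exp (-(β * (1 - η) * L)) := by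
      rw [← Real.exp_add]
      ring_nf
    rw [e3]
    have e4 : Real.exp (-(β * (1 - η) * L)) ≤ Real.exp (-((1 + ε / 2) * L)) := by
      refine Real.exp_le_exp.2 (neg_le_neg ?_)
      apply mul_le_mul_of_nonneg_right _ hL0.le
      have e5 : (1 + 3 / 4 * ε) * (1 - η) ≤ β * (1 - η) := mul_le_mul_of_nonneg_right hc (by linarith)
      rw [hη] at e5 ⊢
      nlinarith
    have e5 := Real.exp_pos (-((1 + ε / 2) * L))
    have e6 := Real.exp_pos (-(β * (1 - η) * L))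
    have e7 := Real.exp_pos (1 : ℝ)
    calc Real.exp 1 * Real.exp (-(β * (1 - η) * L)) ≤ 3 * Real.exp (-((1 + ε / 2) * L)) :=
          mul_le_mul hexp1 e4 e6.le (by norm_num)
      _ ≤ 12 * Real.exp (-((1 + ε / 2) * L)) := by linarith
  · push Not at hc
    obtain ⟨s, hs⟩ : ∃ s, s = 1 + ε - β := ⟨_, rfl⟩
    have e3 := e2 s (by rw [hs, hη]; linarith) (by rw [hs]; linarith)
    rw [← hL] at e3
    have hU : ∀ n ∈ U m g, 3 ≤ n := by
      intro n hn
      unfold U at hn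
      rw [mem_Ioo] at hn
      omega
    have hV : ∀ n ∈ V m g, 3 ≤ n := fun n hn => mem_V (by omega) hn
    have hd : Disjoint (U m g) (V m g) := by
      rw [disjoint_left]
      intro n hn hn'
      unfold U at hn
      unfold V at hn'
      rw [mem_Ioo] at hn hn'
      have e4 : (g : ℝ) ≤ m := by
        rw [Real.rpow_one] at h5
        linarith
      have e5 : g ≤ m := by exact_mod_cast e4
      nlinarith [hn.2, hn'.1]
    have e4 := real_two hA hU hV hd (fun T => Disjoint T (U m g))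
      (fun T => s < ((T.card : ℝ) - g * m / L) ^ 2 / (2 * g * m))
    have hx0 : (0 : ℝ) < 2 * g * m := by positivity
    have hset : {ω | Emp (A ω) m g ∧ 1 + ε < β + dvn (A ω) m g ^ 2} =
        {ω | Disjoint (tr A (U m g) ω) (U m g) ∧ s < (((tr A (V m g) ω).card : ℝ) - g * m / L) ^ 2 / (2 * g * m)} := by
      ext ω
      simp only [Set.mem_ofPred_eq]
      rw [emp_iff]
      have e5 : dvn (A ω) m g ^ 2 = (((tr A (V m g) ω).card : ℝ) - g * m / L) ^ 2 / (2 * g * m) := by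
        unfold dvn
        rw [NV_eq, ← hL, div_pow, Real.sq_sqrt hx0.le]
      rw [e5, hs]
      refine and_congr_right (fun _ => ?_)
      constructor <;> intro h <;> linarith
    rw [hset, e4]
    refine (mul_le_mul e1 e3 measureReal_nonneg (Real.exp_pos _).le).trans ?_
    have e5 : Real.exp (1 - β * (1 - η) * L) * (4 * Real.exp (-((s - 9 * η) * L))) =
        4 * Real.exp 1 * Real.exp (-((β * (1 - η) + s - 9 * η) * L)) := by
      have e6 : Real.exp (1 - β * (1 - η) * L) = Real.exp 1 * Real.exp (-(β * (1 - η) * L)) := by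
        rw [← Real.exp_add]
        ring_nf
      rw [e6, show -((β * (1 - η) + s - 9 * η) * L) = -(β * (1 - η) * L) + -((s - 9 * η) * L) by ring, Real.exp_add]
      ring
    rw [e5]
    have e6 : Real.exp (-((β * (1 - η) + s - 9 * η) * L)) ≤ Real.exp (-((1 + ε / 2) * L)) := by
      refine Real.exp_le_exp.2 (neg_le_neg ?_)
      apply mul_le_mul_of_nonneg_right _ hL0.le
      rw [hs, hη]
      nlinarith
    have e7 := Real.exp_pos (-((β * (1 - η) + s - 9 * η) * L))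
    calc 4 * Real.exp 1 * Real.exp (-((β * (1 - η) + s - 9 * η) * L)) ≤ (4 * 3) * Real.exp (-((1 + ε / 2) * L)) :=
          mul_le_mul (by linarith) e6 e7.le (by norm_num)
      _ = 12 * Real.exp (-((1 + ε / 2) * L)) := by ring

/-- **The upper bound.** -/
theorem upper (hA : IsCramer μ A) {ε : ℝ} (hε : 0 < ε) (hε1 : ε ≤ 1) : ∀ᵐ ω ∂μ, ∀ᶠ m : ℕ in atTop, ∀ g : ℕ, 1 ≤ g →
    Emp (A ω) m g → g / Real.log m ^ 2 + dvn (A ω) m g ^ 2 ≤ 1 + ε := by
  obtain ⟨G, hG⟩ : ∃ G : ℕ → ℕ, G = fun (m : ℕ) => ⌈(1 + ε) * Real.log m ^ 2⌉₊ + 1 := ⟨_, rfl⟩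
  have hG3 : ∀ᶠ m : ℕ in atTop, (G m : ℝ) ≤ 3 * Real.log m ^ 2 := by
    filter_upwards [hl.eventually_ge_atTop 2] with m h1
    have h2 : 0 ≤ (1 + ε) * Real.log m ^ 2 := by positivity
    have h3 := Nat.ceil_lt_add_one h2
    rw [hG]
    push_cast
    nlinarith
  have hsum : Summable (fun m : ℕ => (m : ℝ) ^ (-(1 + ε / 4))) := Real.summable_nat_rpow.2 (by linarith)
  have h := ae_all_grid (μ := μ) (τ := ℕ) (fun m => Icc 1 (G m))
    (fun m g => {ω | Emp (A ω) m g ∧ 1 + ε < g / Real.log m ^ 2 + dvn (A ω) m g ^ 2})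
    (fun m : ℕ => (m : ℝ) ^ (-(1 + ε / 4))) hsum (by
      filter_upwards [prob_joint hA hε hε1, hG3, ev_pw 36 2 (show (0 : ℝ) < ε / 4 by linarith), eventually_ge_atTop 3]
        with m h1 h2 h3 h4
      have hm0 : (0 : ℝ) < m := by exact_mod_cast (show 0 < m by omega)
      have e1 : ∀ g ∈ Icc 1 (G m), μ.real {ω | Emp (A ω) m g ∧ 1 + ε < g / Real.log m ^ 2 + dvn (A ω) m g ^ 2} ≤
          12 * Real.exp (-((1 + ε / 2) * Real.log m)) := by
        intro g hg
        rw [mem_Icc] at hg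
        refine h1 g hg.1 ?_
        have : (g : ℝ) ≤ G m := by exact_mod_cast hg.2
        linarith
      refine (sum_le_sum e1).trans ?_
      rw [sum_const, Nat.card_Icc, nsmul_eq_mul]
      have e2 : Real.exp (-((1 + ε / 2) * Real.log m)) = (m : ℝ) ^ (-(1 + ε / 4)) * (m : ℝ) ^ (-(ε / 4)) := by
        rw [← Real.rpow_add hm0, Real.rpow_def_of_pos hm0]
        congr 1
        ring
      have e3 : ((G m + 1 - 1 : ℕ) : ℝ) = G m := by simp
      rw [e3, e2]
      have e4 : 0 < (m : ℝ) ^ (-(1 + ε / 4)) := by positivity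
      have e5 : 0 < (m : ℝ) ^ (-(ε / 4)) := by positivity
      have e6 : 36 * Real.log m ^ 2 * (m : ℝ) ^ (-(ε / 4)) ≤ 1 := by
        calc 36 * Real.log m ^ 2 * (m : ℝ) ^ (-(ε / 4)) ≤ (m : ℝ) ^ (ε / 4) * (m : ℝ) ^ (-(ε / 4)) :=
              mul_le_mul_of_nonneg_right h3 e5.le
          _ = 1 := by rw [← Real.rpow_add hm0]; norm_num
      have e7 : (G m : ℝ) * (12 * ((m : ℝ) ^ (-(1 + ε / 4)) * (m : ℝ) ^ (-(ε / 4)))) ≤
          3 * Real.log m ^ 2 * (12 * ((m : ℝ) ^ (-(1 + ε / 4)) * (m : ℝ) ^ (-(ε / 4)))) :=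
        mul_le_mul_of_nonneg_right h2 (by positivity)
      nlinarith)
  filter_upwards [h] with ω hω
  filter_upwards [hω, hl.eventually_ge_atTop 1] with m h1 h2 g hg hemp
  by_cases hgG : g ≤ G m
  · have h3 := h1 g (mem_Icc.2 ⟨hg, hgG⟩)
    by_contra hcon
    push Not at hcon
    exact h3 ⟨hemp, hcon⟩
  · exfalso
    push Not at hgG
    have hG1 : 1 ≤ G m := by rw [hG]; simp
    refine h1 (G m) (mem_Icc.2 ⟨hG1, le_rfl⟩) ⟨fun k hk1 hk2 => hemp k hk1 (by omega), ?_⟩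
    have e1 : (1 + ε) * Real.log m ^ 2 < G m := by
      have := Nat.le_ceil ((1 + ε) * Real.log (m : ℝ) ^ 2)
      rw [hG]
      push_cast
      linarith
    have e2 : 1 + ε < G m / Real.log m ^ 2 := by
      rw [lt_div_iff₀ (by positivity)]
      exact e1
    have e3 := sq_nonneg (dvn (A ω) m (G m))
    linarith

end

end Pool.Agent.Q106.BR
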